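import Pool.Agent.V11215.EntGraph

/-!
# MP_0a131d: the optimal subgraph entropy constant tends to 1

Every metric graph of rank `r ≥ 2` and entropy `1` has an edge whose deletion leaves a graph of
entropy at least `(r - 2) / (r - 1)`.
-/

namespace Pool.Agent.Results.MP_0a131d_gt.SubgraphEntropy

open Pool.Agent.V11215.Ent MGraph Filter Topology

/-- The largest entropy of a proper subgraph. -/
noncomputable def maxProper (G : MGraph) (ℓ : G.E → ℝ) : ℝ :=
  sSup {h | ∃ H : G.Subgraph, H.IsProper ∧ h = H.toGraph.entropy (fun e => ℓ e.1)}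

/-- The optimal constant `C_r`. -/
noncomputable def C (r : ℕ) : ℝ :=
  sInf {x | ∃ (G : MGraph) (ℓ : G.E → ℝ), G.Connected ∧ G.HasRank r ∧ (∀ e, 0 < ℓ e) ∧
    G.entropy ℓ = 1 ∧ x = maxProper G ℓ}

/-- Entropy is monotone under passing to subgraphs. -/
theorem entropy_mono (G : MGraph) (H : G.Subgraph) (ℓ : G.E → ℝ) (hℓ : ∀ e, 0 < ℓ e) :
    H.toGraph.entropy (fun e => ℓ e.1) ≤ G.entropy ℓ := by
  classical
  let _ : Fintype G.V := Fintype.ofFinite _
  let _ : Fintype G.E := Fintype.ofFinite _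
  let _ : Fintype H.toGraph.V := Fintype.ofFinite _
  let _ : Fintype H.toGraph.E := Fintype.ofFinite _
  obtain ⟨lam, hl, hlam⟩ := exists_lam (fun d : G.Dart => ℓ d.1) (fun d => hℓ _)
  have hG0 : 0 ≤ G.entropy ℓ := ent_nonneg G.Step _ hl hlam
  have hlam' : ∀ d : H.toGraph.Dart, lam ≤ ℓ d.1.1 := fun d => hlam (H.incl d)
  apply le_of_forall_pos_le_add
  intro ε hε
  obtain ⟨u, hu1, hu⟩ := super_of_Zs_fin G.Step (fun d : G.Dart => ℓ d.1)
    (Zs_of_ent_lt G.Step (fun d : G.Dart => ℓ d.1) hl hlam (s := G.entropy ℓ + ε)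
      (by change G.entropy ℓ < _; linarith))
  set K := 1 + ∑ d, u d with hK
  have hKge : ∀ d, u d ≤ K := by
    intro d
    have := Finset.single_le_sum (f := u) (s := Finset.univ)
      (fun d _ => zero_le_one.trans (hu1 d)) (Finset.mem_univ d)
    rw [hK]; linarith
  have hK0 : 0 < K := by
    rw [hK]
    have : 0 ≤ ∑ d, u d := Finset.sum_nonneg fun d _ => zero_le_one.trans (hu1 d)
    linarith
  apply ent_le_of_Zs H.toGraph.Step (fun d : H.toGraph.Dart => ℓ d.1.1) hl hlam' (by linarith)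
  apply Zs_fin_of_super H.toGraph.Step (fun d : H.toGraph.Dart => ℓ d.1.1) (ρ := 1 - 1 / K)
    (by have : 0 < 1 / K := by positivity
        linarith) (u := fun d => u (H.incl d))
  · intro d; exact one_pos.trans_le (hu1 _)
  · intro d
    have h1 := hu (H.incl d)
    have h2 : ∑ d' : H.toGraph.Dart, (if H.toGraph.Step d d' then u (H.incl d') else 0) ≤
        ∑ d', (if G.Step (H.incl d) d' then u d' else 0) := by
      have h3 : ∀ d' : H.toGraph.Dart, (if H.toGraph.Step d d' then u (H.incl d') else 0) =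
          (fun d' : G.Dart => if G.Step (H.incl d) d' then u d' else 0) (H.incl d') := by
        intro d'
        by_cases h : G.Step (H.incl d) (H.incl d')
        · rw [if_pos ((step_incl H d d').2 h)]
          dsimp only
          rw [if_pos h]
        · rw [if_neg (fun h' => h ((step_incl H d d').1 h'))]
          dsimp only
          rw [if_neg h]
      rw [Finset.sum_congr rfl fun d' _ => h3 d',
        ← Finset.sum_image (f := fun d' : G.Dart => if G.Step (H.incl d) d' then u d' else 0)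
          (fun a _ b _ h => incl_inj H h)]
      apply Finset.sum_le_sum_of_subset_of_nonneg (Finset.subset_univ _)
      intro d' _ _
      split_ifs
      exacts [zero_le_one.trans (hu1 d'), le_rfl]
    have h4 : Real.exp (-(G.entropy ℓ + ε) * ℓ d.1.1) *
        ∑ d' : H.toGraph.Dart, (if H.toGraph.Step d d' then u (H.incl d') else 0) ≤
        u (H.incl d) - 1 := by
      rw [h1]
      have h5 : Real.exp (-(G.entropy ℓ + ε) * ℓ d.1.1) *
        ∑ d' : H.toGraph.Dart, (if H.toGraph.Step d d' then u (H.incl d') else 0) ≤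
        Real.exp (-(G.entropy ℓ + ε) * ℓ (H.incl d).1) *
        ∑ d', (if G.Step (H.incl d) d' then u d' else 0) := by
        apply mul_le_mul_of_nonneg_left h2 (Real.exp_pos _).le
      linarith
    refine h4.trans ?_
    have h6 : 1 / K * u (H.incl d) ≤ 1 := by
      rw [div_mul_eq_mul_div, one_mul, div_le_one hK0]; exact hKge _
    linarith

/-- The rose with `r` petals. -/
def rose (r : ℕ) : MGraph where
  V := Unit
  E := Fin r
  src _ := ()
  tgt _ := ()

theorem rose_step (r : ℕ) (d d' : (rose r).Dart) : (rose r).Step d d' ↔ d' ≠ rev d := by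
  unfold MGraph.Step
  exact ⟨fun h => h.2, fun h => ⟨rfl, h⟩⟩

theorem rose_entropy {r : ℕ} (hr : 2 ≤ r) :
    (rose r).entropy (fun _ => Real.log (2 * r - 1)) = 1 := by
  classical
  let _ : Fintype (rose r).E := inferInstanceAs (Fintype (Fin r))
  have hcardE : Fintype.card (rose r).E = r := Fintype.card_fin r
  have hcard : Fintype.card (rose r).Dart = 2 * r := by
    rw [Fintype.card_prod, hcardE, Fintype.card_bool, mul_comm]
  have hr' : (2 : ℝ) ≤ r := by exact_mod_cast hr
  set L := Real.log (2 * r - 1) with hL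
  have hL0 : 0 < L := Real.log_pos (by linarith)
  have hexp : Real.exp L = 2 * r - 1 := Real.exp_log (by linarith)
  have hcount : ∀ d : (rose r).Dart,
      ∑ d' : (rose r).Dart, (if d' ≠ rev d then (1 : ℝ) else 0) = 2 * r - 1 := by
    intro d
    have h1 : ∀ d' : (rose r).Dart, (if d' ≠ rev d then (1 : ℝ) else 0) =
        1 - (if d' = rev d then 1 else 0) := by
      intro d'
      by_cases h : d' = rev d
      · rw [if_neg (by simpa using h), if_pos h]; norm_num
      · rw [if_pos h, if_neg h]; norm_num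
    rw [Finset.sum_congr rfl fun d' _ => h1 d', Finset.sum_sub_distrib,
      Finset.sum_ite_eq' Finset.univ (rev d)]
    simp only [Finset.sum_const, Finset.card_univ, hcard, Finset.mem_univ, if_true]
    simp
  have hlam : ∀ d : (rose r).Dart, L ≤ (fun _ : (rose r).Dart => L) d := fun _ => le_rfl
  apply le_antisymm
  · apply le_of_forall_pos_le_add
    intro ε hε
    apply ent_le_of_Zs (rose r).Step (fun _ : (rose r).Dart => L) hL0 hlam (by linarith)
    apply Zs_fin_of_super (rose r).Step (fun _ : (rose r).Dart => L) (ρ := Real.exp (-(ε * L)))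
      (by rw [Real.exp_lt_one_iff]; have := mul_pos hε hL0; linarith) (u := fun _ => 1)
      (fun _ => one_pos)
    intro d
    have h2 : ∑ d' : (rose r).Dart, (if (rose r).Step d d' then (1 : ℝ) else 0) = 2 * r - 1 := by
      rw [← hcount d]
      apply Finset.sum_congr rfl
      intro d' _
      by_cases h : d' = rev d
      · rw [if_neg (by rw [rose_step]; simpa using h), if_neg (by simpa using h)]
      · rw [if_pos (by rw [rose_step]; exact h), if_pos h]
    rw [h2, ← hexp, ← Real.exp_add]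
    apply le_of_eq
    rw [mul_one]
    congr 1
    ring
  · by_contra hneg
    push Not at hneg
    obtain ⟨u, hu1, hu⟩ := super_of_Zs_fin (rose r).Step (fun _ : (rose r).Dart => L)
      (Zs_of_ent_lt (rose r).Step (fun _ : (rose r).Dart => L) hL0 hlam (s := 1) hneg)
    have h1 : ∑ d, u d = ∑ d : (rose r).Dart, (1 + Real.exp (-1 * L) *
        ∑ d', (if (rose r).Step d d' then u d' else 0)) := Finset.sum_congr rfl fun d _ => hu d
    rw [Finset.sum_add_distrib, ← Finset.mul_sum, Finset.sum_comm] at h1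
    have h2 : ∀ d' : (rose r).Dart,
        ∑ d : (rose r).Dart, (if (rose r).Step d d' then u d' else 0) = (2 * r - 1) * u d' := by
      intro d'
      rw [← hcount d', Finset.sum_mul]
      apply Finset.sum_congr rfl
      intro d _
      have h3 : d' = rev d ↔ d = rev d' := by
        constructor
        · intro h; rw [h, rev_rev]
        · intro h; rw [h, rev_rev]
      by_cases h : d = rev d'
      · rw [if_neg (by rw [rose_step]; simpa using h3.2 h), if_neg (by simpa using h), zero_mul]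
      · rw [if_pos (by rw [rose_step]; exact fun h' => h (h3.1 h')), if_pos h, one_mul]
    rw [Finset.sum_congr rfl fun d' _ => h2 d', ← Finset.mul_sum, ← mul_assoc] at h1
    have h3 : Real.exp (-1 * L) * (2 * r - 1) = 1 := by
      rw [← hexp, ← Real.exp_add]; simp
    rw [h3, one_mul] at h1
    simp only [Finset.sum_const, Finset.card_univ, hcard] at h1
    simp at h1
    omega

theorem rose_connected (r : ℕ) : (rose r).Connected :=
  ⟨⟨()⟩, fun _ _ => Relation.EqvGen.refl _⟩

theorem rose_rank (r : ℕ) : (rose r).HasRank r := by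
  unfold HasRank
  have h1 : Nat.card (rose r).E = r := Nat.card_fin r
  have h2 : Nat.card (rose r).V = 1 := by
    change Nat.card Unit = 1
    exact Nat.card_unique
  rw [h1, h2]; omega

/-- **Theorem.** For `r ≥ 2`, every connected metric graph of rank `r` and entropy `1` has an edge
whose deletion leaves entropy at least `(r - 2) / (r - 1)`. Hence `(r-2)/(r-1) ≤ C_r ≤ 1` for
`r ≥ 3`, so that `inf_{r ≥ 3} C_r ≥ 1/2 > 0` and `C_r → 1`. -/
theorem result :
    (∀ (G : MGraph) (r : ℕ) (ℓ : G.E → ℝ), G.Connected → G.HasRank r → 2 ≤ r →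
      (∀ e, 0 < ℓ e) → G.entropy ℓ = 1 →
      ∃ e : G.E, ((r : ℝ) - 2) / ((r : ℝ) - 1) ≤ (G.del e).toGraph.entropy (fun f => ℓ f.1)) ∧
    (∀ r : ℕ, 3 ≤ r → ((r : ℝ) - 2) / ((r : ℝ) - 1) ≤ C r ∧ C r ≤ 1) ∧
    (0 < ⨅ r : {r : ℕ // 3 ≤ r}, C r) ∧
    Tendsto C atTop (𝓝 1) := by
  have hmain : ∀ (G : MGraph) (r : ℕ) (ℓ : G.E → ℝ), G.Connected → G.HasRank r → 2 ≤ r →
      (∀ e, 0 < ℓ e) → G.entropy ℓ = 1 →
      ∃ e : G.E, ((r : ℝ) - 2) / ((r : ℝ) - 1) ≤ (G.del e).toGraph.entropy (fun f => ℓ f.1) :=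
    fun G r ℓ h1 h2 h3 h4 h5 => main_bound G h1 r h2 h3 ℓ h4 h5
  have hC : ∀ r : ℕ, 3 ≤ r → ((r : ℝ) - 2) / ((r : ℝ) - 1) ≤ C r ∧ C r ≤ 1 := by
    intro r hr
    have hr' : (3 : ℝ) ≤ r := by exact_mod_cast hr
    have hbdd : ∀ (G : MGraph) (ℓ : G.E → ℝ), (∀ e, 0 < ℓ e) → G.entropy ℓ = 1 →
        ∀ h ∈ {h | ∃ H : G.Subgraph, H.IsProper ∧ h = H.toGraph.entropy (fun e => ℓ e.1)},
          h ≤ 1 := by
      rintro G ℓ hℓ h1 _ ⟨H, _, rfl⟩
      rw [← h1]
      exact entropy_mono G H ℓ hℓ
    have hlow : ∀ x ∈ {x | ∃ (G : MGraph) (ℓ : G.E → ℝ), G.Connected ∧ G.HasRank r ∧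
        (∀ e, 0 < ℓ e) ∧ G.entropy ℓ = 1 ∧ x = maxProper G ℓ},
        ((r : ℝ) - 2) / ((r : ℝ) - 1) ≤ x := by
      rintro _ ⟨G, ℓ, hG, hrk, hℓ, h1, rfl⟩
      obtain ⟨e, he⟩ := hmain G r ℓ hG hrk (by omega) hℓ h1
      refine he.trans (le_csSup ⟨1, fun h hh => hbdd G ℓ hℓ h1 h hh⟩ ⟨G.del e, ?_, rfl⟩)
      right
      intro h
      have : e ∈ (G.del e).F := by rw [h]; exact Set.mem_univ _
      exact this rfl
    have hmem : maxProper (rose r) (fun _ => Real.log (2 * r - 1)) ∈
        {x | ∃ (G : MGraph) (ℓ : G.E → ℝ), G.Connected ∧ G.HasRank r ∧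
        (∀ e, 0 < ℓ e) ∧ G.entropy ℓ = 1 ∧ x = maxProper G ℓ} :=
      ⟨rose r, fun _ => Real.log (2 * r - 1), rose_connected r, rose_rank r,
        fun _ => Real.log_pos (by linarith), rose_entropy (by omega), rfl⟩
    refine ⟨le_csInf ⟨_, hmem⟩ hlow, ?_⟩
    refine (csInf_le ⟨_, hlow⟩ hmem).trans ?_
    apply csSup_le
    · refine ⟨_, ⟨⟨∅, ∅, fun e he => he.elim, fun e he => he.elim⟩, ?_, rfl⟩⟩
      left
      intro h
      have : Nonempty (rose r).V := ⟨()⟩
      exact Set.empty_ne_univ h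
    · have hpos : ∀ e : (rose r).E, 0 < (fun _ : (rose r).E => Real.log (2 * r - 1)) e :=
        fun _ => Real.log_pos (by linarith)
      exact hbdd (rose r) (fun _ => Real.log (2 * r - 1)) hpos (rose_entropy (by omega))
  refine ⟨hmain, hC, ?_, ?_⟩
  · have : Nonempty {r : ℕ // 3 ≤ r} := ⟨⟨3, le_rfl⟩⟩
    have h1 : (1 / 2 : ℝ) ≤ ⨅ r : {r : ℕ // 3 ≤ r}, C r := by
      apply le_ciInf
      rintro ⟨r, hr⟩
      have hr' : (3 : ℝ) ≤ r := by exact_mod_cast hr
      refine le_trans ?_ (hC r hr).1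
      rw [div_le_div_iff₀ (by norm_num) (by linarith)]
      linarith
    linarith
  · have h1 : Tendsto (fun r : ℕ => ((r : ℝ) - 2) / ((r : ℝ) - 1)) atTop (𝓝 1) := by
      have h2 : Tendsto (fun r : ℕ => (1 : ℝ) - 1 / ((r : ℝ) - 1)) atTop (𝓝 (1 - 0)) := by
        apply tendsto_const_nhds.sub
        apply Tendsto.div_atTop tendsto_const_nhds
        exact tendsto_atTop_add_const_right _ _ tendsto_natCast_atTop_atTop
      rw [sub_zero] at h2
      apply h2.congr'
      filter_upwards [eventually_ge_atTop 3] with r hr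
      have hr' : (3 : ℝ) ≤ r := by exact_mod_cast hr
      have : (r : ℝ) - 1 ≠ 0 := by linarith
      field_simp
      ring
    apply tendsto_of_tendsto_of_tendsto_of_le_of_le' h1 tendsto_const_nhds
    · filter_upwards [eventually_ge_atTop 3] with r hr using (hC r hr).1
    · filter_upwards [eventually_ge_atTop 3] with r hr using (hC r hr).2

end Pool.Agent.Results.MP_0a131d_gt.SubgraphEntropy
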